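import Pool.Agent.Y674.TR.Stm

/-!
# TR-TRF: linear forms on the ring of integers are traces (helper988)
-/

set_option autoImplicit false

namespace Pool.Agent.Y988.TR

open Module
open scoped nonZeroDivisors

theorem trf0 (K : Type*) [Field K] [NumberField K] (ι : Type*) [Fintype ι] [DecidableEq ι]
    (b : Basis ι ℤ (NumberField.RingOfIntegers K)) (y : ι → ℚ) (hy : y ≠ 0) :
    ∃ c : K, c ≠ 0 ∧ ∀ z : ι → ℚ, ∑ j, y j * z j =
      Algebra.trace ℚ K (c * ∑ j, z j • ((b j : NumberField.RingOfIntegers K) : K)) := by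
  let B : Basis ι ℚ K := b.localizationLocalization ℚ ℤ⁰ K
  have hB : ∀ j, B j = ((b j : NumberField.RingOfIntegers K) : K) := fun j =>
    Basis.localizationLocalization_apply ℚ ℤ⁰ K b j
  have hn := traceForm_nondegenerate ℚ K
  let f : K →ₗ[ℚ] ℚ := B.constr ℚ y
  have hf : ∀ j, f (B j) = y j := fun j => B.constr_basis ℚ y j
  let c : K := (LinearMap.BilinForm.toDual (Algebra.traceForm ℚ K) hn).symm f
  have hc : ∀ v : K, Algebra.trace ℚ K (c * v) = f v := by
    intro v
    have h := LinearMap.BilinForm.apply_toDual_symm_apply (B := Algebra.traceForm ℚ K) (hB := hn) f v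
    rw [Algebra.traceForm_apply] at h
    exact h
  have key : ∀ z : ι → ℚ, ∑ j, y j * z j =
      Algebra.trace ℚ K (c * ∑ j, z j • ((b j : NumberField.RingOfIntegers K) : K)) := by
    intro z
    rw [hc, map_sum]
    refine Finset.sum_congr rfl fun j _ => ?_
    rw [map_smul, ← hB, hf, smul_eq_mul, mul_comm]
  refine ⟨c, ?_, key⟩
  intro h0
  apply hy
  funext j
  have h1 := key (Pi.single j 1)
  rw [h0, zero_mul, map_zero] at h1
  simpa [Pi.single_apply] using h1

theorem trf : Pool.Agent.Y674.TR.TRF := by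
  intro K _ _ n b y hy
  obtain ⟨c, hc, h⟩ := trf0 K (Fin n) b (fun j => (y j : ℚ)) (by
    intro h0
    apply hy
    funext j
    have h1 := congrFun h0 j
    simpa using h1)
  refine ⟨c, hc, fun z => ?_⟩
  have h1 := h (fun j => (z j : ℚ))
  have h2 : ((∑ j, z j • b j : NumberField.RingOfIntegers K) : K) =
      ∑ j, ((z j : ℤ) : ℚ) • ((b j : NumberField.RingOfIntegers K) : K) := by
    change algebraMap (NumberField.RingOfIntegers K) K (∑ j, z j • b j) = _
    rw [map_sum]
    refine Finset.sum_congr rfl fun j _ => ?_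
    rw [map_zsmul, zsmul_eq_mul, Algebra.smul_def, map_intCast]
  rw [h2, ← h1]
  push_cast
  rfl

end Pool.Agent.Y988.TR
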